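import Pool.Agent.H57.UD.Per

set_option autoImplicit false

namespace Pool.Agent.H57.UD

variable {N : ℕ} {P : Fin N → ℤ × ℤ} {E : List (Cls N)} {k₀ : ℕ}

theorem edge_count (hG : Good P E k₀) {V : Type} [Finite V] (φ : V ↪ Vt N) (M : ℕ)
    (hφ : ∀ u : Vt N, 0 ≤ u.1 → u.1 < M → 0 ≤ u.2.1 → u.2.1 < M → ∃ v, φ v = u) :
    E.length * (M - 2) ^ 2 ≤ (fin hG φ).edgeSet.ncard := by
  classical
  have hex : ∀ q : Fin E.length × Fin (M - 2) × Fin (M - 2), ∃ e : (fin hG φ).edgeSet,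
      Sym2.map φ e.1 = s(src (E.get q.1) (q.2.1.1 + 1) (q.2.2.1 + 1),
        tgt (E.get q.1) (q.2.1.1 + 1) (q.2.2.1 + 1)) := by
    rintro ⟨t, a, b⟩
    have hc : E.get t ∈ E := List.get_mem E t
    have hb := hG.bd _ hc
    have ha' := a.2
    have hb' := b.2
    obtain ⟨u, hu⟩ := hφ (src (E.get t) (a.1 + 1) (b.1 + 1))
      (by simp only [src]; omega) (by simp only [src]; omega)
      (by simp only [src]; omega) (by simp only [src]; omega)
    obtain ⟨w, hw⟩ := hφ (tgt (E.get t) (a.1 + 1) (b.1 + 1))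
      (by simp only [tgt]; omega) (by simp only [tgt]; omega)
      (by simp only [tgt]; omega) (by simp only [tgt]; omega)
    refine ⟨⟨s(u, w), ?_⟩, ?_⟩
    · show rel E (φ u) (φ w)
      exact ⟨E.get t, hc, a.1 + 1, b.1 + 1, Or.inl ⟨hu, hw⟩⟩
    · simp only [Sym2.map_mk, hu, hw]
  choose f hf using hex
  have hinj : Function.Injective f := by
    rintro ⟨t, a, b⟩ ⟨t', a', b'⟩ h
    have h1 := hf (t, a, b)
    have h2 := hf (t', a', b')
    rw [h, h2] at h1
    simp only [Sym2.eq_iff] at h1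
    rcases h1 with ⟨h3, h4⟩ | ⟨h3, h4⟩
    · obtain ⟨g1, g2, g3⟩ := cls_eq h3 h4
      have e1 : t' = t := (List.nodup_iff_injective_get.mp hG.nodup) g1
      have e2 : a' = a := by
        apply Fin.ext
        omega
      have e3 : b' = b := by
        apply Fin.ext
        omega
      rw [e1, e2, e3]
    · exact (src_tgt_ne hG (List.get_mem E t') (List.get_mem E t) h3 h4).elim
  have hcard := Nat.card_le_card_of_injective f hinj
  rw [Nat.card_coe_set_eq] at hcard
  have : Nat.card (Fin E.length × Fin (M - 2) × Fin (M - 2)) = E.length * (M - 2) ^ 2 := by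
    rw [Nat.card_prod, Nat.card_prod, Nat.card_fin, Nat.card_fin]
    ring
  rw [this] at hcard
  exact hcard

/-- the enumeration of the vertices -/
def phiFun (N : ℕ) [NeZero N] (M k : ℕ) : Vt N :=
  if k < N * M ^ 2 then (((k / N / M : ℕ) : ℤ), ((k / N % M : ℕ) : ℤ),
    ⟨k % N, Nat.mod_lt _ (NeZero.pos N)⟩)
  else (-((k : ℤ) + 1), 0, ⟨0, NeZero.pos N⟩)

theorem phiFun_inj (N : ℕ) [NeZero N] (M : ℕ) : Function.Injective (phiFun N M) := by
  intro k k' h
  unfold phiFun at h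
  split_ifs at h with h1 h2 h2
  · simp only [Prod.mk.injEq, Nat.cast_inj, Fin.mk.injEq] at h
    obtain ⟨a1, a2, a3⟩ := h
    have e1 : k / N = k' / N := by
      rw [← Nat.div_add_mod (k / N) M, ← Nat.div_add_mod (k' / N) M, a1, a2]
    rw [← Nat.div_add_mod k N, ← Nat.div_add_mod k' N, e1, a3]
  · simp only [Prod.mk.injEq] at h
    have h3 := h.1
    have h4 := Int.natCast_nonneg (k / N / M)
    linarith [Int.natCast_nonneg k']
  · simp only [Prod.mk.injEq] at h
    have h3 := h.1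
    have h4 := Int.natCast_nonneg (k' / N / M)
    linarith [Int.natCast_nonneg k]
  · simp only [Prod.mk.injEq] at h
    have := h.1
    omega

/-- the embedding of `Fin n` -/
def phi (N : ℕ) [NeZero N] (n M : ℕ) : Fin n ↪ Vt N :=
  ⟨fun k => phiFun N M k.1, fun _ _ h => Fin.ext (phiFun_inj N M h)⟩

theorem phi_block (N : ℕ) [NeZero N] (n M : ℕ) (hn : N * M ^ 2 ≤ n) (u : Vt N) (h1 : 0 ≤ u.1)
    (h2 : u.1 < M) (h3 : 0 ≤ u.2.1) (h4 : u.2.1 < M) : ∃ v, phi N n M v = u := by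
  obtain ⟨i, j, v⟩ := u
  simp only at h1 h2 h3 h4
  obtain ⟨i, rfl⟩ := Int.eq_ofNat_of_zero_le h1
  obtain ⟨j, rfl⟩ := Int.eq_ofNat_of_zero_le h3
  have hi : i < M := by exact_mod_cast h2
  have hj : j < M := by exact_mod_cast h4
  have hv := v.2
  have hN := NeZero.pos N
  have hlt : N * (M * i + j) + v.1 < N * M ^ 2 := by
    have h5 : M * i + j + 1 ≤ M * M := by nlinarith
    have h6 : N * (M * i + j + 1) ≤ N * (M * M) := Nat.mul_le_mul_left _ h5
    nlinarith
  refine ⟨⟨N * (M * i + j) + v.1, by omega⟩, ?_⟩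
  show phiFun N M (N * (M * i + j) + v.1) = _
  unfold phiFun
  rw [if_pos hlt]
  have e1 : (N * (M * i + j) + v.1) / N = M * i + j := by
    rw [Nat.mul_add_div hN, Nat.div_eq_of_lt hv, add_zero]
  have e0 : (N * (M * i + j) + v.1) % N = v.1 := by
    rw [Nat.mul_add_mod, Nat.mod_eq_of_lt hv]
  have e2 : (M * i + j) / M = i := by
    rw [Nat.mul_add_div (by omega), Nat.div_eq_of_lt hj, add_zero]
  have e3 : (M * i + j) % M = j := by
    rw [Nat.mul_add_mod, Nat.mod_eq_of_lt hj]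
  simp only [e1, e2, e3, e0, Fin.eta]

theorem family (hG : Good P E k₀) [NeZero N] (n : ℕ) : ∃ H : SimpleGraph (Fin n),
    KPlanarUnit k₀ H ∧
    (E.length : ℝ) / N * (n : ℝ) - 6 * E.length * Real.sqrt n ≤ (H.edgeSet.ncard : ℝ) := by
  have hN := NeZero.pos N
  have hNr : (1 : ℝ) ≤ N := by exact_mod_cast hN
  set M := Nat.sqrt (n / N) with hM
  have h1 : M * M ≤ n / N := Nat.sqrt_le _
  have h2 : n / N < (M + 1) * (M + 1) := Nat.lt_succ_sqrt _
  have h3 : N * M ^ 2 ≤ n := by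
    calc N * M ^ 2 = N * (M * M) := by ring
      _ ≤ N * (n / N) := Nat.mul_le_mul_left _ h1
      _ ≤ n := Nat.mul_div_le n N
  have h4 : n < N * (M + 1) ^ 2 := by
    calc n < N * (n / N + 1) := by
          have := Nat.lt_mul_div_succ n hN
          simpa using this
      _ ≤ N * ((M + 1) * (M + 1)) := Nat.mul_le_mul_left _ h2
      _ = N * (M + 1) ^ 2 := by ring
  refine ⟨fin hG (phi N n M), kplanar hG _, ?_⟩
  have h5 : E.length * (M - 2) ^ 2 ≤ (fin hG (phi N n M)).edgeSet.ncard :=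
    edge_count hG (phi N n M) M (phi_block N n M h3)
  have hL : (0 : ℝ) ≤ E.length := Nat.cast_nonneg _
  have hMn : (M : ℝ) ≤ Real.sqrt n := by
    apply Real.le_sqrt_of_sq_le
    have : ((N * M ^ 2 : ℕ) : ℝ) ≤ n := by exact_mod_cast h3
    push_cast at this
    nlinarith [sq_nonneg (M : ℝ)]
  have h4' : (n : ℝ) / N ≤ (M + 1) ^ 2 := by
    rw [div_le_iff₀ (by linarith)]
    have : (n : ℝ) < ((N * (M + 1) ^ 2 : ℕ) : ℝ) := by exact_mod_cast h4
    push_cast at this
    linarith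
  have h5' : ((E.length * (M - 2) ^ 2 : ℕ) : ℝ) ≤ (fin hG (phi N n M)).edgeSet.ncard := by
    exact_mod_cast h5
  have h6 : (E.length : ℝ) / N * (n : ℝ) ≤ E.length * (M + 1) ^ 2 := by
    calc (E.length : ℝ) / N * (n : ℝ) = E.length * ((n : ℝ) / N) := by ring
      _ ≤ _ := mul_le_mul_of_nonneg_left h4' hL
  by_cases hM2 : 2 ≤ M
  · obtain ⟨m, hm⟩ := Nat.exists_eq_add_of_le hM2
    have e : M - 2 = m := by omega
    rw [e] at h5'
    push_cast at h5'
    have hm' : (M : ℝ) = 2 + m := by rw [hm]; push_cast; ring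
    have hm0 : (0 : ℝ) ≤ m := Nat.cast_nonneg m
    refine le_trans ?_ h5'
    have q1 : (E.length : ℝ) * (M + 1) ^ 2 - 6 * E.length * Real.sqrt n ≤
        E.length * (m : ℝ) ^ 2 := by
      have q2 : (E.length : ℝ) * M ≤ E.length * Real.sqrt n := mul_le_mul_of_nonneg_left hMn hL
      have q3 : (E.length : ℝ) * (M + 1) ^ 2 - E.length * (m : ℝ) ^ 2 =
          E.length * (6 * M - 3) := by rw [hm']; ring
      nlinarith
    linarith
  · have h10 : (0 : ℝ) ≤ (fin hG (phi N n M)).edgeSet.ncard := Nat.cast_nonneg _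
    refine le_trans ?_ h10
    rcases Nat.eq_zero_or_pos n with h0 | h0
    · rw [h0]; simp
    · have h7 : (1 : ℝ) ≤ Real.sqrt n := by
        rw [Real.one_le_sqrt]
        exact_mod_cast h0
      have h8 : (M : ℝ) ≤ 1 := by
        have : M ≤ 1 := by omega
        exact_mod_cast this
      have h9 : ((M : ℝ) + 1) ^ 2 ≤ 4 := by
        have : (0 : ℝ) ≤ M := Nat.cast_nonneg _
        nlinarith
      have h11 : (E.length : ℝ) * (M + 1) ^ 2 ≤ E.length * 4 := mul_le_mul_of_nonneg_left h9 hL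
      have h12 : (E.length : ℝ) * 1 ≤ E.length * Real.sqrt n := mul_le_mul_of_nonneg_left h7 hL
      linarith

end Pool.Agent.H57.UD
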