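import Pool.Agent.H57.UD.Count

set_option autoImplicit false

/-!
# The periodic drawings
-/

namespace Pool.Agent.H57.UD

/-- positions for `k = 5` -/
def P5 (v : Fin 3) : ℤ × ℤ :=
  ([(0, 0), (1, 4), (4, 2)] : List (ℤ × ℤ)).getD v.1 (0, 0)

/-- the 11 edge classes for `k = 5` -/
def E5 : List (Cls 3) :=
  [(0, 0, -1, 1), (0, 0, 0, 1), (0, 0, 1, 0), (1, 0, -1, 1), (1, 1, -1, 1), (1, 1, 0, 1),
   (1, 1, 1, 0), (2, 2, -1, 1), (2, 2, 0, 1), (2, 0, 1, 1), (2, 2, 1, 0)]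

theorem good5 : Good P5 E5 5 where
  bd := by decide +kernel
  rev := by decide +kernel
  pbd := by decide +kernel
  pinj := by decide +kernel
  nodup := by decide +kernel
  cnt := by decide +kernel
  av := by decide +kernel
  unit := by decide +kernel

/-- positions for `k = 6` -/
def P6 (v : Fin 3) : ℤ × ℤ :=
  ([(0, 0), (1, 4), (4, 2)] : List (ℤ × ℤ)).getD v.1 (0, 0)

/-- the 12 edge classes for `k = 6` -/
def E6 : List (Cls 3) :=
  [(0, 0, -1, 1), (0, 0, 0, 1), (0, 0, 1, 0), (1, 0, -1, 1), (1, 1, -1, 1), (1, 1, 0, 1),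
   (1, 2, 0, 1), (1, 1, 1, 0), (2, 2, -1, 1), (2, 2, 0, 1), (2, 0, 1, 1), (2, 2, 1, 0)]

theorem good6 : Good P6 E6 6 where
  bd := by decide +kernel
  rev := by decide +kernel
  pbd := by decide +kernel
  pinj := by decide +kernel
  nodup := by decide +kernel
  cnt := by decide +kernel
  av := by decide +kernel
  unit := by decide +kernel

/-- positions for `k = 9` -/
def P9 (v : Fin 4) : ℤ × ℤ :=
  ([(3, 0), (0, 2), (4, 4), (5, 1)] : List (ℤ × ℤ)).getD v.1 (0, 0)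

/-- the 18 edge classes for `k = 9` -/
def E9 : List (Cls 4) :=
  [(0, 0, -1, 1), (0, 3, -1, 1), (0, 0, 0, 1), (0, 0, 1, 0), (1, 1, -1, 1), (1, 1, 0, 1),
   (1, 0, 0, 1), (1, 1, 1, 0), (2, 0, -1, 1), (2, 2, -1, 1), (2, 2, 0, 1), (2, 1, 1, 1),
   (2, 2, 1, 0), (3, 2, -1, 0), (3, 3, -1, 1), (3, 1, 0, 1), (3, 3, 0, 1), (3, 3, 1, 0)]

theorem good9 : Good P9 E9 9 where
  bd := by decide +kernel
  rev := by decide +kernel
  pbd := by decide +kernel
  pinj := by decide +kernel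
  nodup := by decide +kernel
  cnt := by decide +kernel
  av := by decide +kernel
  unit := by decide +kernel

/-- positions for `k = 14` -/
def P14 (v : Fin 5) : ℤ × ℤ :=
  ([(3, 1), (4, 5), (0, 3), (2, 4), (1, 0)] : List (ℤ × ℤ)).getD v.1 (0, 0)

/-- the 24 edge classes for `k = 14` -/
def E14 : List (Cls 5) :=
  [(0, 3, -1, 0), (0, 0, -1, 1), (0, 0, 0, 1), (0, 0, 1, 0), (1, 0, -1, 1), (1, 1, -1, 1),
   (1, 1, 0, 1), (1, 2, 1, 1), (1, 1, 1, 0), (2, 3, -1, 1), (2, 2, 0, 1), (2, 0, 0, 1),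
   (2, 2, 1, 0), (3, 4, -1, 1), (3, 3, -1, 1), (3, 1, -1, 1), (3, 3, 0, 1), (3, 3, 1, 0),
   (4, 2, -1, 0), (4, 4, -1, 1), (4, 0, -1, 1), (4, 4, 0, 1), (4, 1, 0, 0), (4, 4, 1, 0)]

theorem good14 : Good P14 E14 14 where
  bd := by decide +kernel
  rev := by decide +kernel
  pbd := by decide +kernel
  pinj := by decide +kernel
  nodup := by decide +kernel
  cnt := by decide +kernel
  av := by decide +kernel
  unit := by decide +kernel

/-- positions for `k = 15` -/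
def P15 (v : Fin 5) : ℤ × ℤ :=
  ([(2, 4), (0, 3), (1, 0), (4, 5), (5, 2)] : List (ℤ × ℤ)).getD v.1 (0, 0)

/-- the 25 edge classes for `k = 15` -/
def E15 : List (Cls 5) :=
  [(0, 2, -1, 1), (0, 0, -1, 1), (0, 3, -1, 1), (0, 0, 0, 1), (0, 4, 0, 1), (0, 0, 1, 0),
   (1, 1, -1, 1), (1, 0, -1, 1), (1, 1, 0, 1), (1, 1, 1, 0), (2, 1, -1, 0), (2, 2, -1, 1),
   (2, 2, 0, 1), (2, 3, 0, 0), (2, 2, 1, 0), (3, 3, -1, 1), (3, 3, 0, 1), (3, 1, 1, 1),
   (3, 3, 1, 0), (4, 3, -1, 0), (4, 4, -1, 1), (4, 1, 0, 1), (4, 4, 0, 1), (4, 2, 1, 1),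
   (4, 4, 1, 0)]

theorem good15 : Good P15 E15 15 where
  bd := by decide +kernel
  rev := by decide +kernel
  pbd := by decide +kernel
  pinj := by decide +kernel
  nodup := by decide +kernel
  cnt := by decide +kernel
  av := by decide +kernel
  unit := by decide +kernel

/-- positions for `k = 20` -/
def P20 (v : Fin 6) : ℤ × ℤ :=
  ([(3, 6), (5, 3), (2, 4), (1, 2), (4, 1), (6, 5)] : List (ℤ × ℤ)).getD v.1 (0, 0)

/-- the 33 edge classes for `k = 20` -/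
def E20 : List (Cls 6) :=
  [(0, 2, -1, 1), (0, 0, -1, 1), (0, 0, 0, 1), (0, 3, 1, 1), (0, 0, 1, 0), (1, 4, -1, 1),
   (1, 1, -1, 1), (1, 2, 0, 1), (1, 1, 0, 1), (1, 0, 1, 0), (1, 1, 1, 0), (2, 3, -1, 1),
   (2, 2, -1, 1), (2, 5, -1, 1), (2, 2, 0, 1), (2, 2, 1, 0), (3, 3, -1, 1), (3, 1, -1, 1),
   (3, 3, 0, 1), (3, 5, 0, 0), (3, 3, 1, 0), (4, 0, -1, 0), (4, 4, -1, 1), (4, 3, 0, 1),
   (4, 4, 0, 1), (4, 2, 1, 0), (4, 4, 1, 0), (5, 1, -1, 1), (5, 5, -1, 1), (5, 0, 0, 1),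
   (5, 5, 0, 1), (5, 4, 1, 1), (5, 5, 1, 0)]

theorem good20 : Good P20 E20 20 where
  bd := by decide +kernel
  rev := by decide +kernel
  pbd := by decide +kernel
  pinj := by decide +kernel
  nodup := by decide +kernel
  cnt := by decide +kernel
  av := by decide +kernel
  unit := by decide +kernel

end Pool.Agent.H57.UD
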