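import Mathlib

set_option autoImplicit false

/-!
# Integer certificates for disjointness of open segments
-/

namespace Pool.Agent.H57.UD

/-- orientation determinant -/
def crossZ (a b c : ℤ × ℤ) : ℤ := (b.1 - a.1) * (c.2 - a.2) - (b.2 - a.2) * (c.1 - a.1)

/-- `c` and `d` are weakly on one side of the line `ab` and not both on it -/
def sideZ (a b c d : ℤ × ℤ) : Bool :=
  (decide (0 ≤ crossZ a b c) && decide (0 ≤ crossZ a b d) &&
      (decide (0 < crossZ a b c) || decide (0 < crossZ a b d))) ||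
    (decide (crossZ a b c ≤ 0) && decide (crossZ a b d ≤ 0) &&
      (decide (crossZ a b c < 0) || decide (crossZ a b d < 0)))

/-- the boxes of `ab` and `cd` are strictly separated -/
def boxZ (a b c d : ℤ × ℤ) : Bool :=
  (decide (a.1 < c.1) && decide (a.1 < d.1) && decide (b.1 < c.1) && decide (b.1 < d.1)) ||
  (decide (c.1 < a.1) && decide (c.1 < b.1) && decide (d.1 < a.1) && decide (d.1 < b.1)) ||
  (decide (a.2 < c.2) && decide (a.2 < d.2) && decide (b.2 < c.2) && decide (b.2 < d.2)) ||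
  (decide (c.2 < a.2) && decide (c.2 < b.2) && decide (d.2 < a.2) && decide (d.2 < b.2))

/-- weak separation of the boxes in one coordinate -/
def weakZ (a b c d : ℤ) : Bool :=
  decide (a ≠ b) && ((decide (a ≤ c) && decide (a ≤ d) && decide (b ≤ c) && decide (b ≤ d)) ||
    (decide (c ≤ a) && decide (c ≤ b) && decide (d ≤ a) && decide (d ≤ b)))

/-- certified disjointness of the open segments `ab`, `cd` -/
def apart (a b c d : ℤ × ℤ) : Bool :=
  boxZ a b c d || sideZ a b c d || sideZ c d a b || weakZ a.1 b.1 c.1 d.1 ||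
    weakZ a.2 b.2 c.2 d.2

/-- the real point of an integer point -/
def toR (a : ℤ × ℤ) : ℝ × ℝ := ((a.1 : ℝ), (a.2 : ℝ))

theorem mem_os {a b : ℤ × ℤ} {x : ℝ × ℝ} (hx : x ∈ openSegment ℝ (toR a) (toR b)) :
    ∃ t : ℝ, 0 < t ∧ t < 1 ∧ x.1 = (1 - t) * a.1 + t * b.1 ∧ x.2 = (1 - t) * a.2 + t * b.2 := by
  obtain ⟨s, t, hs, ht, hst, rfl⟩ := hx
  refine ⟨t, ht, by linarith, ?_, ?_⟩
  · have : s = 1 - t := by linarith
    simp [toR, this]
  · have : s = 1 - t := by linarith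
    simp [toR, this]

theorem side_sound {a b c d : ℤ × ℤ} (h : sideZ a b c d = true) {x : ℝ × ℝ}
    (hx : x ∈ openSegment ℝ (toR a) (toR b)) (hy : x ∈ openSegment ℝ (toR c) (toR d)) : False := by
  obtain ⟨t, ht0, ht1, h1, h2⟩ := mem_os hx
  obtain ⟨u, hu0, hu1, h3, h4⟩ := mem_os hy
  have key : (1 - u) * (crossZ a b c : ℝ) + u * (crossZ a b d : ℝ) = 0 := by
    have e1 : (1 - u) * (c.1 : ℝ) + u * d.1 = (1 - t) * a.1 + t * b.1 := by rw [← h1, ← h3]
    have e2 : (1 - u) * (c.2 : ℝ) + u * d.2 = (1 - t) * a.2 + t * b.2 := by rw [← h2, ← h4]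
    have : (1 - u) * (crossZ a b c : ℝ) + u * (crossZ a b d : ℝ)
        = ((b.1 : ℝ) - a.1) * (((1 - u) * c.2 + u * d.2) - a.2)
          - ((b.2 : ℝ) - a.2) * (((1 - u) * c.1 + u * d.1) - a.1) := by
      simp only [crossZ]; push_cast; ring
    rw [this, e1, e2]; ring
  have hu' : 0 < 1 - u := by linarith
  simp only [sideZ, Bool.or_eq_true, Bool.and_eq_true, decide_eq_true_eq] at h
  rcases h with ⟨⟨p, q⟩, r⟩ | ⟨⟨p, q⟩, r⟩
  · have p' : (0 : ℝ) ≤ crossZ a b c := by exact_mod_cast p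
    have q' : (0 : ℝ) ≤ crossZ a b d := by exact_mod_cast q
    rcases r with r | r
    · have r' : (0 : ℝ) < crossZ a b c := by exact_mod_cast r
      nlinarith [mul_pos hu' r', mul_nonneg hu0.le q']
    · have r' : (0 : ℝ) < crossZ a b d := by exact_mod_cast r
      nlinarith [mul_pos hu0 r', mul_nonneg hu'.le p']
  · have p' : (crossZ a b c : ℝ) ≤ 0 := by exact_mod_cast p
    have q' : (crossZ a b d : ℝ) ≤ 0 := by exact_mod_cast q
    rcases r with r | r
    · have r' : (crossZ a b c : ℝ) < 0 := by exact_mod_cast r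
      nlinarith [mul_pos hu' (neg_pos.mpr r'), mul_nonneg hu0.le (neg_nonneg.mpr q')]
    · have r' : (crossZ a b d : ℝ) < 0 := by exact_mod_cast r
      nlinarith [mul_pos hu0 (neg_pos.mpr r'), mul_nonneg hu'.le (neg_nonneg.mpr p')]

theorem conv_lt {t u a b c d : ℝ} (ht0 : 0 < t) (ht1 : t < 1) (hu0 : 0 < u) (hu1 : u < 1)
    (h1 : a < c) (h2 : a < d) (h3 : b < c) (h4 : b < d) :
    (1 - t) * a + t * b < (1 - u) * c + u * d := by
  have e1 : (1 - t) * a + t * b ≤ max a b := by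
    nlinarith [mul_nonneg (sub_nonneg.mpr ht1.le) (sub_nonneg.mpr (le_max_left a b)),
      mul_nonneg ht0.le (sub_nonneg.mpr (le_max_right a b))]
  have e2 : min c d ≤ (1 - u) * c + u * d := by
    nlinarith [mul_nonneg (sub_nonneg.mpr hu1.le) (sub_nonneg.mpr (min_le_left c d)),
      mul_nonneg hu0.le (sub_nonneg.mpr (min_le_right c d))]
  have e3 : max a b < min c d := by
    rw [max_lt_iff, lt_min_iff, lt_min_iff]
    exact ⟨⟨h1, h2⟩, ⟨h3, h4⟩⟩
  linarith

theorem box_sound {a b c d : ℤ × ℤ} (h : boxZ a b c d = true) {x : ℝ × ℝ}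
    (hx : x ∈ openSegment ℝ (toR a) (toR b)) (hy : x ∈ openSegment ℝ (toR c) (toR d)) : False := by
  obtain ⟨t, ht0, ht1, h1, h2⟩ := mem_os hx
  obtain ⟨u, hu0, hu1, h3, h4⟩ := mem_os hy
  simp only [boxZ, Bool.or_eq_true, Bool.and_eq_true, decide_eq_true_eq] at h
  rcases h with ((⟨⟨⟨p, q⟩, r⟩, s⟩ | ⟨⟨⟨p, q⟩, r⟩, s⟩) | ⟨⟨⟨p, q⟩, r⟩, s⟩) | ⟨⟨⟨p, q⟩, r⟩, s⟩
  · have := conv_lt (a := (a.1 : ℝ)) (b := b.1) (c := c.1) (d := d.1) ht0 ht1 hu0 hu1
      (by exact_mod_cast p) (by exact_mod_cast q) (by exact_mod_cast r) (by exact_mod_cast s)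
    linarith
  · have := conv_lt (a := (c.1 : ℝ)) (b := d.1) (c := a.1) (d := b.1) hu0 hu1 ht0 ht1
      (by exact_mod_cast p) (by exact_mod_cast q) (by exact_mod_cast r) (by exact_mod_cast s)
    linarith
  · have := conv_lt (a := (a.2 : ℝ)) (b := b.2) (c := c.2) (d := d.2) ht0 ht1 hu0 hu1
      (by exact_mod_cast p) (by exact_mod_cast q) (by exact_mod_cast r) (by exact_mod_cast s)
    linarith
  · have := conv_lt (a := (c.2 : ℝ)) (b := d.2) (c := a.2) (d := b.2) hu0 hu1 ht0 ht1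
      (by exact_mod_cast p) (by exact_mod_cast q) (by exact_mod_cast r) (by exact_mod_cast s)
    linarith

theorem weak_real {a b c d : ℤ} (h : weakZ a b c d = true) {t u : ℝ} (ht0 : 0 < t) (ht1 : t < 1)
    (hu0 : 0 < u) (hu1 : u < 1) (he : (1 - t) * (a : ℝ) + t * b = (1 - u) * c + u * d) : False := by
  simp only [weakZ, Bool.or_eq_true, Bool.and_eq_true, decide_eq_true_eq] at h
  obtain ⟨hab, h⟩ := h
  have hab' : (a : ℝ) ≠ b := by exact_mod_cast hab
  have h1 : 0 < 1 - t := by linarith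
  have h2 : 0 < 1 - u := by linarith
  rcases h with ⟨⟨⟨p, q⟩, r⟩, s⟩ | ⟨⟨⟨p, q⟩, r⟩, s⟩
  · have p' : (a : ℝ) ≤ c := by exact_mod_cast p
    have q' : (a : ℝ) ≤ d := by exact_mod_cast q
    have r' : (b : ℝ) ≤ c := by exact_mod_cast r
    have s' : (b : ℝ) ≤ d := by exact_mod_cast s
    have e1 : max (a : ℝ) b ≤ (1 - u) * c + u * d := by
      rw [max_le_iff]
      constructor
      · nlinarith [mul_nonneg h2.le (sub_nonneg.mpr p'), mul_nonneg hu0.le (sub_nonneg.mpr q')]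
      · nlinarith [mul_nonneg h2.le (sub_nonneg.mpr r'), mul_nonneg hu0.le (sub_nonneg.mpr s')]
    have e2 : (1 - t) * (a : ℝ) + t * b < max (a : ℝ) b := by
      rcases lt_or_gt_of_ne hab' with h | h
      · rw [max_eq_right h.le]
        nlinarith [mul_pos h1 (sub_pos.mpr h)]
      · rw [max_eq_left h.le]
        nlinarith [mul_pos ht0 (sub_pos.mpr h)]
    linarith
  · have p' : (c : ℝ) ≤ a := by exact_mod_cast p
    have q' : (c : ℝ) ≤ b := by exact_mod_cast q
    have r' : (d : ℝ) ≤ a := by exact_mod_cast r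
    have s' : (d : ℝ) ≤ b := by exact_mod_cast s
    have e1 : (1 - u) * (c : ℝ) + u * d ≤ min (a : ℝ) b := by
      rw [le_min_iff]
      constructor
      · nlinarith [mul_nonneg h2.le (sub_nonneg.mpr p'), mul_nonneg hu0.le (sub_nonneg.mpr r')]
      · nlinarith [mul_nonneg h2.le (sub_nonneg.mpr q'), mul_nonneg hu0.le (sub_nonneg.mpr s')]
    have e2 : min (a : ℝ) b < (1 - t) * (a : ℝ) + t * b := by
      rcases lt_or_gt_of_ne hab' with h | h
      · rw [min_eq_left h.le]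
        nlinarith [mul_pos ht0 (sub_pos.mpr h)]
      · rw [min_eq_right h.le]
        nlinarith [mul_pos h1 (sub_pos.mpr h)]
    linarith

theorem apart_sound {a b c d : ℤ × ℤ} (h : apart a b c d = true) {x : ℝ × ℝ}
    (hx : x ∈ openSegment ℝ (toR a) (toR b)) (hy : x ∈ openSegment ℝ (toR c) (toR d)) : False := by
  simp only [apart, Bool.or_eq_true] at h
  rcases h with (((h | h) | h) | h) | h
  · exact box_sound h hx hy
  · exact side_sound h hx hy
  · exact side_sound h hy hx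
  · obtain ⟨t, ht0, ht1, h1, h2⟩ := mem_os hx
    obtain ⟨u, hu0, hu1, h3, h4⟩ := mem_os hy
    exact weak_real h ht0 ht1 hu0 hu1 (by rw [← h1, ← h3])
  · obtain ⟨t, ht0, ht1, h1, h2⟩ := mem_os hx
    obtain ⟨u, hu0, hu1, h3, h4⟩ := mem_os hy
    exact weak_real h ht0 ht1 hu0 hu1 (by rw [← h2, ← h4])

/-- certified: `p` is not in the open segment `ab` -/
def avoidZ (a b p : ℤ × ℤ) : Bool :=
  decide (crossZ a b p ≠ 0) ||
    (decide (a.1 ≠ b.1) && (decide (p.1 ≤ a.1 ∧ p.1 ≤ b.1) || decide (a.1 ≤ p.1 ∧ b.1 ≤ p.1))) ||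
    (decide (a.2 ≠ b.2) && (decide (p.2 ≤ a.2 ∧ p.2 ≤ b.2) || decide (a.2 ≤ p.2 ∧ b.2 ≤ p.2)))

theorem conv_ne {t a b p : ℝ} (ht0 : 0 < t) (ht1 : t < 1) (hab : a ≠ b)
    (h : (p ≤ a ∧ p ≤ b) ∨ (a ≤ p ∧ b ≤ p)) : p ≠ (1 - t) * a + t * b := by
  intro hp
  have h1 : 0 < 1 - t := by linarith
  rcases h with ⟨h2, h3⟩ | ⟨h2, h3⟩
  · have : (1 - t) * (a - p) + t * (b - p) = 0 := by linarith
    have h4 := mul_nonneg h1.le (sub_nonneg.mpr h2)
    have h5 := mul_nonneg ht0.le (sub_nonneg.mpr h3)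
    have h6 : (1 - t) * (a - p) = 0 := by linarith
    have h7 : t * (b - p) = 0 := by linarith
    have h8 : a - p = 0 := by
      rcases mul_eq_zero.mp h6 with h | h
      · linarith
      · exact h
    have h9 : b - p = 0 := by
      rcases mul_eq_zero.mp h7 with h | h
      · linarith
      · exact h
    exact hab (by linarith)
  · have : (1 - t) * (p - a) + t * (p - b) = 0 := by linarith
    have h4 := mul_nonneg h1.le (sub_nonneg.mpr h2)
    have h5 := mul_nonneg ht0.le (sub_nonneg.mpr h3)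
    have h6 : (1 - t) * (p - a) = 0 := by linarith
    have h7 : t * (p - b) = 0 := by linarith
    have h8 : p - a = 0 := by
      rcases mul_eq_zero.mp h6 with h | h
      · linarith
      · exact h
    have h9 : p - b = 0 := by
      rcases mul_eq_zero.mp h7 with h | h
      · linarith
      · exact h
    exact hab (by linarith)

theorem avoid_sound {a b p : ℤ × ℤ} (h : avoidZ a b p = true)
    (hx : toR p ∈ openSegment ℝ (toR a) (toR b)) : False := by
  obtain ⟨t, ht0, ht1, h1, h2⟩ := mem_os hx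
  simp only [toR] at h1 h2
  simp only [avoidZ, Bool.or_eq_true, Bool.and_eq_true, decide_eq_true_eq] at h
  rcases h with (h | ⟨h, h'⟩) | ⟨h, h'⟩
  · apply h
    have : (crossZ a b p : ℝ) = 0 := by
      simp only [crossZ]; push_cast; rw [h1, h2]; ring
    exact_mod_cast this
  · refine conv_ne (a := (a.1 : ℝ)) (b := b.1) (p := p.1) ht0 ht1 (by exact_mod_cast h) ?_ h1
    rcases h' with h' | h'
    · exact Or.inl ⟨by exact_mod_cast h'.1, by exact_mod_cast h'.2⟩
    · exact Or.inr ⟨by exact_mod_cast h'.1, by exact_mod_cast h'.2⟩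
  · refine conv_ne (a := (a.2 : ℝ)) (b := b.2) (p := p.2) ht0 ht1 (by exact_mod_cast h) ?_ h2
    rcases h' with h' | h'
    · exact Or.inl ⟨by exact_mod_cast h'.1, by exact_mod_cast h'.2⟩
    · exact Or.inr ⟨by exact_mod_cast h'.1, by exact_mod_cast h'.2⟩

theorem cross_shift (a b c : ℤ × ℤ) (x y : ℤ) :
    crossZ (a.1 + x, a.2 + y) (b.1 + x, b.2 + y) (c.1 + x, c.2 + y) = crossZ a b c := by
  simp only [crossZ]; ring

theorem apart_shift (a b c d : ℤ × ℤ) (x y : ℤ) :
    apart (a.1 + x, a.2 + y) (b.1 + x, b.2 + y) (c.1 + x, c.2 + y) (d.1 + x, d.2 + y)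
      = apart a b c d := by
  simp only [apart, boxZ, sideZ, weakZ, cross_shift, add_lt_add_iff_right, add_le_add_iff_right,
    ne_eq, add_left_inj]

theorem avoid_shift (a b c : ℤ × ℤ) (x y : ℤ) :
    avoidZ (a.1 + x, a.2 + y) (b.1 + x, b.2 + y) (c.1 + x, c.2 + y) = avoidZ a b c := by
  simp only [avoidZ, cross_shift, add_le_add_iff_right, ne_eq, add_left_inj]

end Pool.Agent.H57.UD
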