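import Pool.Agent.H57.UD.Geo

set_option autoImplicit false

/-!
# Doubly periodic unit distance drawings

Positions are integer points `(x, y)`, standing for the point `(x + y ω) / 7` of the plane with
`ω = (1/2, √3/2)`; the period is `7` in both coordinates.
-/

namespace Pool.Agent.H57.UD

/-- an edge class: start class, end class, cell translation -/
abbrev Cls (N : ℕ) := Fin N × Fin N × ℤ × ℤ

/-- vertices of the infinite periodic graph -/
abbrev Vt (N : ℕ) := ℤ × ℤ × Fin N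

/-- The Euclidean plane. -/
abbrev Plane := EuclideanSpace ℝ (Fin 2)

/-- The open segment of an edge, given the positions of the vertices. -/
def inner {V : Type} (pos : V → Plane) (e : Sym2 V) : Set Plane :=
  {x | ∃ a b, e = s(a, b) ∧ x ∈ openSegment ℝ (pos a) (pos b)}

/-- `G` has a `k`-planar unit distance drawing: distinct points for the vertices, every edge drawn
as a straight segment of length `1` whose interior contains no vertex, and every edge crosses at
most `k` other edges (two edges cross if their open segments have a common point). -/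
def KPlanarUnit (k : ℕ) {V : Type} (G : SimpleGraph V) : Prop :=
  ∃ pos : V → Plane, Function.Injective pos ∧
    (∀ u v, G.Adj u v → dist (pos u) (pos v) = 1) ∧
    (∀ u v w, G.Adj u v → pos w ∉ openSegment ℝ (pos u) (pos v)) ∧
    ∀ e ∈ G.edgeSet, {f | f ∈ G.edgeSet ∧ f ≠ e ∧
      (inner pos e ∩ inner pos f).Nonempty}.encard ≤ k

section

variable {N : ℕ} (P : Fin N → ℤ × ℤ) (E : List (Cls N))

/-- first end of edge class `c` in cell `(i,j)` -/
def s1 (c : Cls N) (i j : ℤ) : ℤ × ℤ := ((P c.1).1 + 7 * i, (P c.1).2 + 7 * j)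

/-- second end of edge class `c` in cell `(i,j)` -/
def s2 (c : Cls N) (i j : ℤ) : ℤ × ℤ :=
  ((P c.2.1).1 + 7 * (i + c.2.2.1), (P c.2.1).2 + 7 * (j + c.2.2.2))

/-- position of vertex class `v` in cell `(i,j)` -/
def vp (v : Fin N) (i j : ℤ) : ℤ × ℤ := ((P v).1 + 7 * i, (P v).2 + 7 * j)

/-- the relative cells to be checked -/
def cells : List (ℤ × ℤ) := ([-2, -1, 0, 1, 2] : List ℤ).product [-2, -1, 0, 1, 2]

/-- the translates whose open segments are not certified to be disjoint from that of `c` -/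
def crossList (c : Cls N) : List (Cls N × ℤ × ℤ) :=
  (E.product cells).filter fun q => (!decide (q = (c, 0, 0))) &&
    !apart (s1 P c 0 0) (s2 P c 0 0) (s1 P q.1 q.2.1 q.2.2) (s2 P q.1 q.2.1 q.2.2)

/-- All finite checks. -/
structure Good (k : ℕ) : Prop where
  bd : ∀ c ∈ E, (-1 ≤ c.2.2.1 ∧ c.2.2.1 ≤ 1) ∧ (-1 ≤ c.2.2.2 ∧ c.2.2.2 ≤ 1)
  rev : ∀ c ∈ E, ∀ d ∈ E, ¬ (d.1 = c.2.1 ∧ d.2.1 = c.1 ∧ d.2.2.1 = -c.2.2.1 ∧
    d.2.2.2 = -c.2.2.2)
  pbd : ∀ v : Fin N, (0 ≤ (P v).1 ∧ (P v).1 < 7) ∧ (0 ≤ (P v).2 ∧ (P v).2 < 7)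
  pinj : ∀ v w : Fin N, P v = P w → v = w
  nodup : E.Nodup
  cnt : ∀ c ∈ E, (crossList P E c).length ≤ k
  av : ∀ c ∈ E, ∀ v : Fin N, ∀ q ∈ cells,
    avoidZ (s1 P c 0 0) (s2 P c 0 0) (vp P v q.1 q.2) = true
  unit : ∀ c ∈ E, ((s2 P c 0 0).1 - (s1 P c 0 0).1) ^ 2 +
    ((s2 P c 0 0).1 - (s1 P c 0 0).1) * ((s2 P c 0 0).2 - (s1 P c 0 0).2) +
    ((s2 P c 0 0).2 - (s1 P c 0 0).2) ^ 2 = 49

/-- integer position of a vertex -/
def pt (u : Vt N) : ℤ × ℤ := vp P u.2.2 u.1 u.2.1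

/-- first end of the edge of class `c` in cell `(i,j)` -/
def src (c : Cls N) (i j : ℤ) : Vt N := (i, j, c.1)

/-- second end of the edge of class `c` in cell `(i,j)` -/
def tgt (c : Cls N) (i j : ℤ) : Vt N := (i + c.2.2.1, j + c.2.2.2, c.2.1)

theorem pt_src (c : Cls N) (i j : ℤ) : pt P (src c i j) = s1 P c i j := rfl

theorem pt_tgt (c : Cls N) (i j : ℤ) : pt P (tgt c i j) = s2 P c i j := rfl

variable {P E} {k₀ : ℕ} (hG : Good P E k₀)

include hG in
theorem pt_inj : Function.Injective (pt P) := by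
  rintro ⟨i, j, v⟩ ⟨i', j', v'⟩ h
  simp only [pt, vp, Prod.mk.injEq] at h
  obtain ⟨h1, h2⟩ := h
  have b1 := hG.pbd v
  have b2 := hG.pbd v'
  have e1 : i = i' := by omega
  have e2 : j = j' := by omega
  subst e1 e2
  have : P v = P v' := by
    ext
    · omega
    · omega
  rw [hG.pinj v v' this]

include hG in
theorem src_tgt_ne {c d : Cls N} (hc : c ∈ E) (hd : d ∈ E) {i j i' j' : ℤ}
    (h1 : src c i j = tgt d i' j') (h2 : tgt c i j = src d i' j') : False := by
  simp only [src, tgt, Prod.mk.injEq] at h1 h2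
  refine hG.rev c hc d hd ⟨h2.2.2.symm, h1.2.2.symm, ?_, ?_⟩
  · omega
  · omega

theorem cls_eq {c d : Cls N} {i j i' j' : ℤ}
    (h1 : src c i j = src d i' j') (h2 : tgt c i j = tgt d i' j') : c = d ∧ i = i' ∧ j = j' := by
  simp only [src, tgt, Prod.mk.injEq] at h1 h2
  obtain ⟨a1, a2, a3⟩ := h1
  obtain ⟨b1, b2, b3⟩ := h2
  refine ⟨?_, a1, a2⟩
  obtain ⟨c1, c2, c3, c4⟩ := c
  obtain ⟨d1, d2, d3, d4⟩ := d
  simp only at a3 b1 b2 b3
  subst a1 a2 a3 b3
  have : c3 = d3 := by omega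
  have h' : c4 = d4 := by omega
  rw [this, h']

variable (E) in
/-- the infinite periodic relation -/
def rel (u w : Vt N) : Prop :=
  ∃ c ∈ E, ∃ i j : ℤ, (u = src c i j ∧ w = tgt c i j) ∨ (w = src c i j ∧ u = tgt c i j)

/-- the infinite periodic graph -/
def bigG (hG : Good P E k₀) : SimpleGraph (Vt N) where
  Adj u w := rel E u w
  symm := ⟨by
    rintro u w ⟨c, hc, i, j, h⟩
    exact ⟨c, hc, i, j, h.symm⟩⟩
  loopless := ⟨by
    rintro u ⟨c, hc, i, j, h⟩
    have : src c i j = tgt c i j := by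
      rcases h with ⟨h1, h2⟩ | ⟨h1, h2⟩
      · rw [← h1, ← h2]
      · rw [← h1, ← h2]
    exact src_tgt_ne hG hc hc this this.symm⟩

theorem s1_shift (c : Cls N) (i j k l : ℤ) :
    s1 P c (i + k) (j + l) = ((s1 P c k l).1 + 7 * i, (s1 P c k l).2 + 7 * j) := by
  simp only [s1, Prod.mk.injEq]
  constructor <;> ring

theorem s2_shift (c : Cls N) (i j k l : ℤ) :
    s2 P c (i + k) (j + l) = ((s2 P c k l).1 + 7 * i, (s2 P c k l).2 + 7 * j) := by
  simp only [s2, Prod.mk.injEq]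
  constructor <;> ring

theorem mem_cells {k l : ℤ} (h1 : -2 ≤ k) (h2 : k ≤ 2) (h3 : -2 ≤ l) (h4 : l ≤ 2) :
    (k, l) ∈ cells := by
  have : ∀ m : ℤ, -2 ≤ m → m ≤ 2 → m ∈ ([-2, -1, 0, 1, 2] : List ℤ) := by
    intro m hm hm'
    interval_cases m <;> simp
  rw [cells, List.pair_mem_product]
  exact ⟨this k h1 h2, this l h3 h4⟩

include hG in
/-- far translates are separated -/
theorem far {c d : Cls N} (hc : c ∈ E) (hd : d ∈ E) {k l : ℤ}
    (h : ¬ (-2 ≤ k ∧ k ≤ 2 ∧ -2 ≤ l ∧ l ≤ 2)) :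
    apart (s1 P c 0 0) (s2 P c 0 0) (s1 P d k l) (s2 P d k l) = true := by
  have b1 := hG.pbd c.1
  have b2 := hG.pbd c.2.1
  have b3 := hG.pbd d.1
  have b4 := hG.pbd d.2.1
  have c1 := hG.bd c hc
  have d1 := hG.bd d hd
  have : boxZ (s1 P c 0 0) (s2 P c 0 0) (s1 P d k l) (s2 P d k l) = true := by
    simp only [boxZ, s1, s2, Bool.or_eq_true, Bool.and_eq_true, decide_eq_true_eq]
    by_cases h1 : 2 < k
    · left; left; left
      refine ⟨⟨⟨?_, ?_⟩, ?_⟩, ?_⟩ <;> omega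
    · by_cases h2 : k < -2
      · left; left; right
        refine ⟨⟨⟨?_, ?_⟩, ?_⟩, ?_⟩ <;> omega
      · by_cases h3 : 2 < l
        · left; right
          refine ⟨⟨⟨?_, ?_⟩, ?_⟩, ?_⟩ <;> omega
        · right
          refine ⟨⟨⟨?_, ?_⟩, ?_⟩, ?_⟩ <;> omega
  simp only [apart, this, Bool.true_or]

include hG in
/-- two edges either have disjoint open segments or form one of the listed crossings -/
theorem listed {c d : Cls N} (hc : c ∈ E) (hd : d ∈ E) {i j k l : ℤ}
    (hne : ¬ (d = c ∧ k = 0 ∧ l = 0)) {x : ℝ × ℝ}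
    (hx : x ∈ openSegment ℝ (toR (s1 P c i j)) (toR (s2 P c i j)))
    (hy : x ∈ openSegment ℝ (toR (s1 P d (i + k) (j + l))) (toR (s2 P d (i + k) (j + l)))) :
    (d, k, l) ∈ crossList P E c := by
  by_contra hcon
  have hap : apart (s1 P c 0 0) (s2 P c 0 0) (s1 P d k l) (s2 P d k l) = true := by
    by_cases hr : -2 ≤ k ∧ k ≤ 2 ∧ -2 ≤ l ∧ l ≤ 2
    · have hm : (d, k, l) ∈ E.product cells :=
        List.pair_mem_product.mpr ⟨hd, mem_cells hr.1 hr.2.1 hr.2.2.1 hr.2.2.2⟩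
      by_contra hap
      apply hcon
      rw [crossList, List.mem_filter]
      refine ⟨hm, ?_⟩
      have e1 : decide ((d, k, l) = (c, (0 : ℤ), (0 : ℤ))) = false := by
        rw [decide_eq_false_iff_not]
        intro h
        simp only [Prod.mk.injEq] at h
        exact hne ⟨by
          obtain ⟨d1, d2, d3, d4⟩ := d
          obtain ⟨c1, c2, c3, c4⟩ := c
          simp only [Prod.mk.injEq] at h ⊢
          exact h.1, h.2.1, h.2.2⟩
      have e2 : apart (s1 P c 0 0) (s2 P c 0 0) (s1 P d k l) (s2 P d k l) = false := by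
        simpa using hap
      simp only [e1, e2, Bool.not_false, Bool.and_self]
    · exact far hG hc hd hr
  refine apart_sound (a := s1 P c i j) (b := s2 P c i j) (c := s1 P d (i + k) (j + l))
    (d := s2 P d (i + k) (j + l)) ?_ hx hy
  have g1 : s1 P c i j = ((s1 P c 0 0).1 + 7 * i, (s1 P c 0 0).2 + 7 * j) := by
    have := s1_shift (P := P) c i j 0 0
    simpa using this
  have g2 : s2 P c i j = ((s2 P c 0 0).1 + 7 * i, (s2 P c 0 0).2 + 7 * j) := by
    have := s2_shift (P := P) c i j 0 0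
    simpa using this
  rw [g1, g2, s1_shift, s2_shift, apart_shift]
  exact hap

include hG in
/-- vertices avoid the open segments of the edges -/
theorem avoid {c : Cls N} (hc : c ∈ E) {i j : ℤ} (u : Vt N)
    (hx : toR (pt P u) ∈ openSegment ℝ (toR (s1 P c i j)) (toR (s2 P c i j))) : False := by
  obtain ⟨i', j', v⟩ := u
  have b1 := hG.pbd c.1
  have b2 := hG.pbd c.2.1
  have b3 := hG.pbd v
  have c1 := hG.bd c hc
  by_cases hr : -2 ≤ i' - i ∧ i' - i ≤ 2 ∧ -2 ≤ j' - j ∧ j' - j ≤ 2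
  · have h := hG.av c hc v (i' - i, j' - j) (mem_cells hr.1 hr.2.1 hr.2.2.1 hr.2.2.2)
    refine avoid_sound (a := s1 P c i j) (b := s2 P c i j) (p := pt P (i', j', v)) ?_ hx
    have g1 : s1 P c i j = ((s1 P c 0 0).1 + 7 * i, (s1 P c 0 0).2 + 7 * j) := by
      have := s1_shift (P := P) c i j 0 0
      simpa using this
    have g2 : s2 P c i j = ((s2 P c 0 0).1 + 7 * i, (s2 P c 0 0).2 + 7 * j) := by
      have := s2_shift (P := P) c i j 0 0
      simpa using this
    have g3 : pt P (i', j', v) = ((vp P v (i' - i) (j' - j)).1 + 7 * i,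
        (vp P v (i' - i) (j' - j)).2 + 7 * j) := by
      simp only [pt, vp, Prod.mk.injEq]
      constructor <;> ring
    rw [g1, g2, g3, avoid_shift]
    exact h
  · obtain ⟨t, ht0, ht1, h1, h2⟩ := mem_os hx
    simp only [toR, pt, vp, s1, s2] at h1 h2
    have key : ∀ a b p : ℤ, (p : ℝ) = (1 - t) * a + t * b → ¬ (p < a ∧ p < b) ∧ ¬ (a < p ∧ b < p) := by
      intro a b p h
      have ht : 0 < 1 - t := by linarith
      constructor
      · rintro ⟨q1, q2⟩
        have q1' : (p : ℝ) < a := by exact_mod_cast q1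
        have q2' : (p : ℝ) < b := by exact_mod_cast q2
        nlinarith [mul_pos ht (sub_pos.mpr q1'), mul_pos ht0 (sub_pos.mpr q2')]
      · rintro ⟨q1, q2⟩
        have q1' : (a : ℝ) < p := by exact_mod_cast q1
        have q2' : (b : ℝ) < p := by exact_mod_cast q2
        nlinarith [mul_pos ht (sub_pos.mpr q1'), mul_pos ht0 (sub_pos.mpr q2')]
    have k1 := key _ _ _ h1
    have k2 := key _ _ _ h2
    by_cases g1 : 2 < i' - i
    · exact k1.2 (by constructor <;> omega)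
    · by_cases g2 : i' - i < -2
      · exact k1.1 (by constructor <;> omega)
      · by_cases g3 : 2 < j' - j
        · exact k2.2 (by constructor <;> omega)
        · exact k2.1 (by constructor <;> omega)

end

/-! ## The real drawing -/

/-- the point `(x + y ω) / 7` -/
noncomputable def toE (x : ℝ × ℝ) : Plane := !₂[(x.1 + x.2 / 2) / 7, Real.sqrt 3 / 2 * x.2 / 7]

theorem toE_inj : Function.Injective toE := by
  rintro ⟨x, y⟩ ⟨x', y'⟩ h
  have h0 := congrArg (fun p : Plane => p 0) h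
  have h1 := congrArg (fun p : Plane => p 1) h
  simp only [toE] at h0 h1
  simp at h0 h1
  have e2 : y = y' := h1
  subst e2
  have e1 : x = x' := by linarith
  rw [e1]

theorem toE_comb (a b : ℝ × ℝ) (s t : ℝ) : s • toE a + t • toE b = toE (s • a + t • b) := by
  ext i
  fin_cases i
  · simp [toE]; ring
  · simp [toE]; ring

theorem os_toE {a b : ℝ × ℝ} {x : Plane} (hx : x ∈ openSegment ℝ (toE a) (toE b)) :
    ∃ y ∈ openSegment ℝ a b, toE y = x := by
  obtain ⟨s, t, hs, ht, hst, rfl⟩ := hx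
  exact ⟨s • a + t • b, ⟨s, t, hs, ht, hst, rfl⟩, (toE_comb a b s t).symm⟩

theorem dist_toE (a b : ℤ × ℤ)
    (h : (b.1 - a.1) ^ 2 + (b.1 - a.1) * (b.2 - a.2) + (b.2 - a.2) ^ 2 = 49) :
    dist (toE (toR a)) (toE (toR b)) = 1 := by
  rw [EuclideanSpace.dist_eq, Fin.sum_univ_two, Real.sqrt_eq_one]
  simp only [toE, toR, Real.dist_eq, sq_abs]
  simp
  have h3 : Real.sqrt 3 ^ 2 = 3 := Real.sq_sqrt (by norm_num)
  have h' : ((b.1 : ℝ) - a.1) ^ 2 + (b.1 - a.1) * (b.2 - a.2) + (b.2 - a.2) ^ 2 = 49 := by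
    exact_mod_cast h
  have e : (((a.1 : ℝ) + a.2 / 2) / 7 - (b.1 + b.2 / 2) / 7) ^ 2 +
      (Real.sqrt 3 / 2 * a.2 / 7 - Real.sqrt 3 / 2 * b.2 / 7) ^ 2 =
      ((((b.1 : ℝ) - a.1) + (b.2 - a.2) / 2) ^ 2 + Real.sqrt 3 ^ 2 / 4 * (b.2 - a.2) ^ 2) / 49 := by
    ring
  rw [e, h3]
  have : (((b.1 : ℝ) - a.1) + (b.2 - a.2) / 2) ^ 2 + 3 / 4 * (b.2 - a.2) ^ 2 = 49 := by
    linear_combination h'
  rw [this]
  norm_num

section

variable {N : ℕ} {P : Fin N → ℤ × ℤ} {E : List (Cls N)} {k₀ : ℕ} (hG : Good P E k₀)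
  {V : Type} (φ : V ↪ Vt N)

/-- the finite graph -/
def fin (hG : Good P E k₀) (φ : V ↪ Vt N) : SimpleGraph V := (bigG hG).comap φ

variable (P) in
/-- position in the plane -/
noncomputable def rp (φ : V ↪ Vt N) (v : V) : Plane := toE (toR (pt P (φ v)))

theorem toR_inj : Function.Injective toR := by
  rintro ⟨a, b⟩ ⟨c, d⟩ h
  simp only [toR, Prod.mk.injEq, Int.cast_inj] at h
  rw [h.1, h.2]

include hG in
theorem rp_inj : Function.Injective (rp P φ) := fun _ _ h =>
  φ.injective (pt_inj hG (toR_inj (toE_inj h)))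

theorem fin_edge {f : Sym2 V} (hf : f ∈ (fin hG φ).edgeSet) : ∃ c ∈ E, ∃ i j : ℤ,
    Sym2.map φ f = s(src c i j, tgt c i j) ∧
    ∀ x ∈ inner (rp P φ) f, ∃ y ∈ openSegment ℝ (toR (s1 P c i j)) (toR (s2 P c i j)),
      toE y = x := by
  induction f using Sym2.ind with
  | _ u v =>
    have hadj : rel E (φ u) (φ v) := hf
    obtain ⟨c, hc, i, j, h⟩ := hadj
    refine ⟨c, hc, i, j, ?_, ?_⟩
    · rw [Sym2.map_mk]
      rcases h with ⟨h1, h2⟩ | ⟨h1, h2⟩
      · rw [h1, h2]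
      · rw [h1, h2]; exact Sym2.eq_swap
    · rintro x ⟨a, b, hab, hx⟩
      obtain ⟨y, hy, hyx⟩ := os_toE hx
      refine ⟨y, ?_, hyx⟩
      have huv : (a = u ∧ b = v) ∨ (a = v ∧ b = u) := by
        rcases Sym2.eq_iff.mp hab with ⟨h1, h2⟩ | ⟨h1, h2⟩
        · exact Or.inl ⟨h1.symm, h2.symm⟩
        · exact Or.inr ⟨h2.symm, h1.symm⟩
      rcases h with ⟨h1, h2⟩ | ⟨h1, h2⟩
      · rcases huv with ⟨rfl, rfl⟩ | ⟨rfl, rfl⟩
        · rw [h1, h2, pt_src, pt_tgt] at hy; exact hy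
        · rw [h1, h2, pt_src, pt_tgt, openSegment_symm] at hy; exact hy
      · rcases huv with ⟨rfl, rfl⟩ | ⟨rfl, rfl⟩
        · rw [h1, h2, pt_src, pt_tgt, openSegment_symm] at hy; exact hy
        · rw [h1, h2, pt_src, pt_tgt] at hy; exact hy

theorem unit_class {c : Cls N} (hG : Good P E k₀) (hc : c ∈ E) (i j : ℤ) :
    dist (toE (toR (s1 P c i j))) (toE (toR (s2 P c i j))) = 1 := by
  apply dist_toE
  have h := hG.unit c hc
  have g1 : s1 P c i j = ((s1 P c 0 0).1 + 7 * i, (s1 P c 0 0).2 + 7 * j) := by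
    have := s1_shift (P := P) c i j 0 0
    simpa using this
  have g2 : s2 P c i j = ((s2 P c 0 0).1 + 7 * i, (s2 P c 0 0).2 + 7 * j) := by
    have := s2_shift (P := P) c i j 0 0
    simpa using this
  rw [g1, g2]
  simp only
  linear_combination h

theorem kplanar : KPlanarUnit k₀ (fin hG φ) := by
  classical
  refine ⟨rp P φ, rp_inj hG φ, ?_, ?_, ?_⟩
  · rintro u v hadj
    have hadj' : rel E (φ u) (φ v) := hadj
    obtain ⟨c, hc, i, j, h⟩ := hadj'
    have hu := unit_class hG hc i j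
    rcases h with ⟨h1, h2⟩ | ⟨h1, h2⟩
    · rw [rp, rp, h1, h2]; exact hu
    · rw [rp, rp, h1, h2, dist_comm]; exact hu
  · rintro u v w hadj hw
    obtain ⟨c, hc, i, j, -, h2⟩ := fin_edge hG φ (f := s(u, v)) hadj
    obtain ⟨y, hy, hyw⟩ := h2 _ ⟨u, v, rfl, hw⟩
    have : y = toR (pt P (φ w)) := toE_inj hyw
    rw [this] at hy
    exact avoid hG hc _ hy
  · intro e he
    have H := fun f : (fin hG φ).edgeSet => fin_edge hG φ f.2
    choose g hg k l hkl hseg using H
    let F : (fin hG φ).edgeSet → Cls N × ℤ × ℤ :=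
      fun f => (g f, k f - k ⟨e, he⟩, l f - l ⟨e, he⟩)
    have hinjF : ∀ f f', F f = F f' → f = f' := by
      intro f f' hFF
      simp only [F, Prod.mk.injEq] at hFF
      have hgg : g f = g f' := by
        obtain ⟨h1, -⟩ := hFF
        revert h1
        rcases g f with ⟨a1, a2, a3, a4⟩
        rcases g f' with ⟨b1, b2, b3, b4⟩
        intro h1
        simpa using h1
      have hk : k f = k f' := by
        have := hFF.2.1
        omega
      have hl : l f = l f' := by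
        have := hFF.2.2
        omega
      apply Subtype.ext
      apply Sym2.map.injective φ.injective
      rw [hkl f, hkl f', hgg, hk, hl]
    have hlist : ∀ f : (fin hG φ).edgeSet, f.1 ≠ e →
        (inner (rp P φ) e ∩ inner (rp P φ) f.1).Nonempty → F f ∈ crossList P E (g ⟨e, he⟩) := by
      rintro f hne ⟨x, hx1, hx2⟩
      obtain ⟨y, hy, hyx⟩ := hseg ⟨e, he⟩ x hx1
      obtain ⟨z, hz, hzx⟩ := hseg f x hx2
      have hyz : y = z := toE_inj (hyx.trans hzx.symm)
      subst hyz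
      refine listed hG (hg _) (hg _) (i := k ⟨e, he⟩) (j := l ⟨e, he⟩) ?_ hy ?_
      · rintro ⟨h1, h2, h3⟩
        apply hne
        have e1 : k f = k ⟨e, he⟩ := by omega
        have e2 : l f = l ⟨e, he⟩ := by omega
        have : Sym2.map φ f.1 = Sym2.map φ e := by
          rw [hkl f, hkl ⟨e, he⟩, h1, e1, e2]
        exact Sym2.map.injective φ.injective this
      · have e1 : k ⟨e, he⟩ + (k f - k ⟨e, he⟩) = k f := by ring
        have e2 : l ⟨e, he⟩ + (l f - l ⟨e, he⟩) = l f := by ring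
        rw [e1, e2]
        exact hz
    -- transfer to subtype
    have hsub : {f | f ∈ (fin hG φ).edgeSet ∧ f ≠ e ∧
        (inner (rp P φ) e ∩ inner (rp P φ) f).Nonempty} =
        Subtype.val '' {f : (fin hG φ).edgeSet | f.1 ≠ e ∧
          (inner (rp P φ) e ∩ inner (rp P φ) f.1).Nonempty} := by
      ext f
      constructor
      · rintro ⟨h1, h2, h3⟩
        exact ⟨⟨f, h1⟩, ⟨h2, h3⟩, rfl⟩
      · rintro ⟨f', ⟨h2, h3⟩, rfl⟩
        exact ⟨f'.2, h2, h3⟩
    rw [hsub, Subtype.val_injective.encard_image]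
    have hmap : Set.MapsTo F {f : (fin hG φ).edgeSet | f.1 ≠ e ∧
          (inner (rp P φ) e ∩ inner (rp P φ) f.1).Nonempty}
        (((crossList P E (g ⟨e, he⟩)).toFinset : Finset _) : Set _) := by
      rintro f ⟨h2, h3⟩
      rw [Finset.mem_coe, List.mem_toFinset]
      exact hlist f h2 h3
    refine (Set.encard_le_encard_of_injOn hmap (fun f _ f' _ h => hinjF f f' h)).trans ?_
    rw [Set.encard_coe_eq_coe_finsetCard]
    exact_mod_cast (List.toFinset_card_le _).trans (hG.cnt _ (hg _))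

end

end Pool.Agent.H57.UD
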